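import Pool.Agent.R993.RR.Defs

/-! Multiplicative approximation (MP_7a141f_an, project RR of helper993). -/

set_option autoImplicit false

namespace Pool.Agent.H152R2.RR

open Pool.Agent.R993.RR

/-- `2 ^ (-200)` -/
noncomputable def kap : ℝ := 1 / 2 ^ 200

lemma kap_pos : 0 < kap := by unfold kap; positivity

lemma kap_le : kap ≤ 1 / 10000 := by
  unfold kap
  norm_num

/-- `1 + kap` -/
noncomputable def r : ℝ := 1 + kap

lemma r_pos : 0 < r := by unfold r; linarith [kap_pos]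

lemma one_le_r : 1 ≤ r := by unfold r; linarith [kap_pos]

lemma one_le_rp (c : ℕ) : 1 ≤ r ^ c := one_le_pow₀ one_le_r

lemma rp_pos (c : ℕ) : 0 < r ^ c := pow_pos r_pos c

lemma rp_mono {c c' : ℕ} (h : c ≤ c') : r ^ c ≤ r ^ c' := pow_le_pow_right₀ one_le_r h

lemma r40 : r ^ 40 * (1 - 40 * kap) ≤ 1 := by
  have h1 : 1 - 40 * kap ≤ (1 - kap) ^ 40 := by
    have := one_add_mul_le_pow (a := -kap) (by linarith [kap_le]) 40
    have h2 : 1 + ((40 : ℕ) : ℝ) * -kap = 1 - 40 * kap := by push_cast; ring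
    rw [h2] at this
    rw [show (1 : ℝ) - kap = 1 + -kap by ring]
    exact this
  have h3 : r * (1 - kap) ≤ 1 := by
    unfold r
    nlinarith [sq_nonneg kap]
  have h4 : 0 ≤ r * (1 - kap) := by
    apply mul_nonneg r_pos.le
    linarith [kap_le]
  calc r ^ 40 * (1 - 40 * kap) ≤ r ^ 40 * (1 - kap) ^ 40 :=
        mul_le_mul_of_nonneg_left h1 (rp_pos 40).le
    _ = (r * (1 - kap)) ^ 40 := by rw [mul_pow]
    _ ≤ 1 := pow_le_one₀ h4 h3

lemma tau_kap : 80 * kap ≤ tau := by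
  unfold kap tau
  norm_num

lemma r_tau {c : ℕ} (hc : c ≤ 40) : r ^ c * (1 - tau) ≤ 1 := by
  have h0 : 0 ≤ 1 - tau := by
    unfold tau
    norm_num
  have h1 : 1 - tau ≤ 1 - 40 * kap := by linarith [tau_kap, kap_pos]
  calc r ^ c * (1 - tau) ≤ r ^ 40 * (1 - 40 * kap) := mul_le_mul (rp_mono hc) h1 h0 (rp_pos 40).le
    _ ≤ 1 := r40

lemma r_tau' {c : ℕ} (hc : c ≤ 40) : r ^ c ≤ 1 + tau := by
  have h1 := r40
  have h2 : 0 < 1 - 40 * kap := by linarith [kap_le]
  have h3 : r ^ 40 ≤ 1 + 80 * kap := by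
    have h4 : r ^ 40 * (1 - 40 * kap) ≤ (1 + 80 * kap) * (1 - 40 * kap) := by
      refine h1.trans ?_
      nlinarith [kap_le, kap_pos]
    exact le_of_mul_le_mul_right h4 h2
  linarith [rp_mono hc, tau_kap]

lemma r_two {c : ℕ} (hc : c ≤ 40) : r ^ c ≤ 2 := by
  have h1 := r_tau' hc
  have : tau ≤ 1 := by unfold tau; norm_num
  linarith

/-- approximation up to a factor `(1 + kap) ^ c` -/
def Ap (c : ℕ) (A C : ℝ) : Prop := A ≤ C * r ^ c ∧ C ≤ A * r ^ c

lemma Ap.trans {c c' : ℕ} {A C D : ℝ} (h : Ap c A C) (h' : Ap c' C D) : Ap (c + c') A D := by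
  constructor
  · calc A ≤ C * r ^ c := h.1
      _ ≤ (D * r ^ c') * r ^ c := mul_le_mul_of_nonneg_right h'.1 (rp_pos c).le
      _ = D * r ^ (c + c') := by rw [pow_add]; ring
  · calc D ≤ C * r ^ c' := h'.2
      _ ≤ (A * r ^ c) * r ^ c' := mul_le_mul_of_nonneg_right h.2 (rp_pos c').le
      _ = A * r ^ (c + c') := by rw [pow_add]; ring

lemma Ap.div {c c' : ℕ} {A C A' C' : ℝ} (h : Ap c A C) (h' : Ap c' A' C') (hA : 0 < A) (hC : 0 < C)
    (hA' : 0 < A') (hC' : 0 < C') : Ap (c + c') (A / A') (C / C') := by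
  constructor
  · rw [div_le_iff₀ hA', div_mul_eq_mul_div, div_mul_eq_mul_div, le_div_iff₀ hC']
    calc A * C' ≤ (C * r ^ c) * (A' * r ^ c') :=
          mul_le_mul h.1 h'.2 hC'.le (mul_pos hC (rp_pos c)).le
      _ = C * r ^ (c + c') * A' := by rw [pow_add]; ring
  · rw [div_le_iff₀ hC', div_mul_eq_mul_div, div_mul_eq_mul_div, le_div_iff₀ hA']
    calc C * A' ≤ (A * r ^ c) * (C' * r ^ c') :=
          mul_le_mul h.2 h'.1 hA'.le (mul_pos hA (rp_pos c)).le
      _ = A * r ^ (c + c') * C' := by rw [pow_add]; ring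

lemma Ap.refl (A : ℝ) : Ap 0 A A := by
  constructor <;> simp

lemma Ap.addB {c : ℕ} {x X : ℝ} (h : Ap c x X) : Ap c (B + x) (B + X) := by
  have h1 := le_mul_of_one_le_right B_pos.le (one_le_rp c)
  constructor
  · rw [add_mul]
    linarith [h.1]
  · rw [add_mul]
    linarith [h.2]

lemma Ap.u {x : ℝ} (hx : 0 < x) (h : B ≤ kap * x) : Ap 1 (B + x) x := by
  constructor
  · rw [pow_one]
    unfold r
    linarith
  · have h1 := one_le_rp 1
    have h2 : 0 < B + x := by linarith [B_pos]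
    have := le_mul_of_one_le_right h2.le h1
    linarith [B_pos]

lemma Ap.uB {x : ℝ} (hx : 0 < x) (h : x ≤ B * kap) : Ap 1 (B + x) B := by
  constructor
  · rw [pow_one]
    unfold r
    linarith
  · have h1 := one_le_rp 1
    have h2 : 0 < B + x := by linarith [B_pos]
    have := le_mul_of_one_le_right h2.le h1
    linarith [B_pos]

/-- `B ≤ kap x` for large `x` -/
lemma big {c : ℕ} (hc : c ≤ 40) {x X : ℝ} (h : Ap c x X) (hX : 2 * B ≤ kap * X) : B ≤ kap * x := by
  have h1 := h.2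
  have h2 : kap * X ≤ kap * x * r ^ c := by
    calc kap * X ≤ kap * (x * r ^ c) := mul_le_mul_of_nonneg_left h1 kap_pos.le
      _ = kap * x * r ^ c := by ring
  have h3 : 0 ≤ kap * x := by
    by_contra hneg
    push Not at hneg
    have := mul_neg_of_neg_of_pos hneg (rp_pos c)
    linarith [B_pos]
  have h4 : kap * x * r ^ c ≤ kap * x * 2 := mul_le_mul_of_nonneg_left (r_two hc) h3
  linarith

lemma B_le : B ≤ kap ^ 8 := by
  unfold B kap
  rw [div_pow, one_pow, ← pow_mul]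
  apply one_div_le_one_div_of_le (by positivity)
  exact pow_le_pow_right₀ (by norm_num) (by norm_num)

/-- theta of a large term -/
lemma th_big {y : ℕ → ℝ} {n : ℕ} (hy : 0 < y n) (h : B ≤ kap * y n) : 1 - tau ≤ th y n := by
  unfold th
  have h2 : 0 < B + y n := by linarith [B_pos]
  rw [le_div_iff₀ h2]
  have h3 : kap ≤ tau := by linarith [tau_kap, kap_pos]
  have h4 : kap * y n ≤ tau * y n := mul_le_mul_of_nonneg_right h3 hy.le
  have h5 : 0 ≤ tau * B := by
    have : 0 ≤ tau := by unfold tau; positivity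
    exact mul_nonneg this B_pos.le
  nlinarith

end Pool.Agent.H152R2.RR
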