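import Pool.Agent.H152R2.RR.Ap

/-! St4 (MP_7a141f_an, project RR of helper993): type ii cycle. -/

set_option autoImplicit false

namespace Pool.Agent.H152R2.RR

open Pool.Agent.R993.RR

namespace Four

lemma B_div_kap : B / 2 ^ 200 = B * kap := by
  unfold kap
  rw [mul_one_div]

lemma tau_le : 0 ≤ 1 - tau := by unfold tau; norm_num

lemma tau_nonneg : 0 ≤ tau := by unfold tau; positivity

/-- `W ≤ 2^564 ≤ kap^(-3)` -/
lemma W_le {V : ℝ} (h : V ≤ 1 / 2 ^ 1100) : V / B * kap ^ 3 ≤ 1 := by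
  have h1 : V / B ≤ 2 ^ 564 := by
    rw [div_le_iff₀ B_pos]
    refine h.trans ?_
    have e : (2 : ℝ) ^ 564 * B = 1 / 2 ^ 1100 := by
      unfold B
      have : (2 : ℝ) ^ 1664 = 2 ^ 564 * 2 ^ 1100 := by rw [← pow_add]
      rw [this]
      have h2 : (2 : ℝ) ^ 564 ≠ 0 := by positivity
      have h3 : (2 : ℝ) ^ 1100 ≠ 0 := by positivity
      field_simp
    rw [e]
  have h2 : (2 : ℝ) ^ 564 ≤ 2 ^ 600 := pow_le_pow_right₀ (by norm_num) (by norm_num)
  have h3 : kap ^ 3 = 1 / 2 ^ 600 := by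
    unfold kap
    rw [div_pow, one_pow, ← pow_mul]
  rw [h3, mul_one_div, div_le_one (by positivity)]
  exact h1.trans h2

attribute [local irreducible] B kap tau r

/-- the heart, with abstract parameters -/
theorem core {y : ℕ → ℝ} (h : IsSol y) (N : ℕ) (w : ℝ) (d1 : y N ≤ B * kap)
    (d2 : y (N + 1) ≤ B * kap) (hV : B + y (N + 2) = B * w) (hw : w * kap ^ 3 ≤ 1) :
    (1 - tau ≤ th y (N + 3) ∧ 1 - tau ≤ th y (N + 4) ∧ 1 - tau ≤ th y (N + 5) ∧
      1 - tau ≤ th y (N + 6) ∧ 1 - tau ≤ th y (N + 7)) ∧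
    Ap 36 (th y (N + 8)) (1 / (1 + w ^ 2)) ∧ y (N + 9) ≤ B * kap ∧ y (N + 10) ≤ B * kap ∧
    Ap 19 (y (N + 11)) (f w) ∧ 1 ≤ w := by
  have hk := kap_pos
  have hk1 := kap_le
  have hb := B_le
  have hB := B_pos
  have hk2 : kap ^ 2 ≤ kap / 100 := by
    calc kap ^ 2 = kap * kap := sq kap
      _ ≤ kap * (1 / 100) := mul_le_mul_of_nonneg_left (by linarith) hk.le
      _ = kap / 100 := by ring
  have hk82 : kap ^ 8 ≤ kap ^ 2 := pow_le_pow_of_le_one hk.le (by linarith) (by norm_num)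
  have hBk : B ≤ kap / 100 := by linarith
  have hw1 : 1 ≤ w := by
    have h1 : B * 1 ≤ B * w := by
      rw [← hV]
      linarith [h.pos (N + 2)]
    exact le_of_mul_le_mul_left h1 hB
  have hw0 : 0 < w := by linarith
  -- B w ≤ kap^5
  have hBw : B * w ≤ kap ^ 5 := by
    calc B * w ≤ kap ^ 8 * w := mul_le_mul_of_nonneg_right hb hw0.le
      _ = kap ^ 5 * (w * kap ^ 3) := by ring
      _ ≤ kap ^ 5 * 1 := mul_le_mul_of_nonneg_left hw (by positivity)
      _ = kap ^ 5 := mul_one _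
  have hk52 : kap ^ 5 ≤ kap ^ 2 := pow_le_pow_of_le_one hk.le (by linarith) (by norm_num)
  have hBw1 : B * w ≤ kap / 100 := by linarith
  have hBw0 : 0 < B * w := mul_pos hB hw0
  -- B w^2 ≤ kap^2
  have hBww : B * w ^ 2 ≤ kap / 100 := by
    calc B * w ^ 2 = (B * w) * w := by ring
      _ ≤ kap ^ 5 * w := mul_le_mul_of_nonneg_right hBw hw0.le
      _ = kap ^ 2 * (w * kap ^ 3) := by ring
      _ ≤ kap ^ 2 * 1 := mul_le_mul_of_nonneg_left hw (by positivity)
      _ = kap ^ 2 := mul_one _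
      _ ≤ kap / 100 := hk2
  -- the recurrence
  have s2 : y (N + 3) = (B * w) / (B + y N) := by rw [← hV]; exact h.step N
  have s3 : y (N + 4) = (B + y (N + 3)) / (B + y (N + 1)) := h.step (N + 1)
  have s4 : y (N + 5) = (B + y (N + 4)) / (B * w) := by rw [← hV]; exact h.step (N + 2)
  have s5 : y (N + 6) = (B + y (N + 5)) / (B + y (N + 3)) := h.step (N + 3)
  have s6 : y (N + 7) = (B + y (N + 6)) / (B + y (N + 4)) := h.step (N + 4)
  have s7 : y (N + 8) = (B + y (N + 7)) / (B + y (N + 5)) := h.step (N + 5)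
  have s8 : y (N + 9) = (B + y (N + 8)) / (B + y (N + 6)) := h.step (N + 6)
  have s9 : y (N + 10) = (B + y (N + 9)) / (B + y (N + 7)) := h.step (N + 7)
  have s10 : y (N + 11) = (B + y (N + 10)) / (B + y (N + 8)) := h.step (N + 8)
  have hpos : ∀ n, 0 < B + y n := fun n => by linarith [h.pos n]
  have a0 : Ap 1 (B + y N) B := Ap.uB (h.pos N) d1
  have a1 : Ap 1 (B + y (N + 1)) B := Ap.uB (h.pos (N + 1)) d2
  -- x2
  have a2 : Ap 1 (y (N + 3)) w := by
    rw [s2]
    have := (Ap.refl (B * w)).div a0 hBw0 hBw0 (hpos N) hB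
    have e : B * w / B = w := by field_simp
    rwa [e] at this
  have g2 : 2 * B ≤ kap * w := by
    calc 2 * B ≤ kap := by linarith
      _ = kap * 1 := (mul_one _).symm
      _ ≤ kap * w := mul_le_mul_of_nonneg_left hw1 hk.le
  have b2 : B ≤ kap * y (N + 3) := big (by norm_num) a2 g2
  have c2 : Ap 2 (B + y (N + 3)) w := (Ap.u (h.pos _) b2).trans a2
  -- x3
  have a3 : Ap 3 (y (N + 4)) (w / B) := by
    rw [s3]
    exact c2.div a1 (hpos _) hw0 (hpos _) hB
  have hwB0 : 0 < w / B := div_pos hw0 hB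
  have hwB : w ≤ w / B := by
    rw [le_div_iff₀ hB]
    exact mul_le_of_le_one_right hw0.le (by linarith)
  have g3 : 2 * B ≤ kap * (w / B) := g2.trans (mul_le_mul_of_nonneg_left hwB hk.le)
  have b3 : B ≤ kap * y (N + 4) := big (by norm_num) a3 g3
  have c3 : Ap 4 (B + y (N + 4)) (w / B) := (Ap.u (h.pos _) b3).trans a3
  -- x4
  have hBB0 : 0 < B ^ 2 := pow_pos hB 2
  have hiB0 : 0 < 1 / B ^ 2 := one_div_pos.mpr hBB0
  have a4 : Ap 4 (y (N + 5)) (1 / B ^ 2) := by
    rw [s4]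
    have := c3.div (Ap.refl (B * w)) (hpos _) hwB0 hBw0 hBw0
    have e : w / B / (B * w) = 1 / B ^ 2 := by field_simp
    rwa [e] at this
  have g4 : 2 * B ≤ kap * (1 / B ^ 2) := by
    rw [mul_one_div, le_div_iff₀ hBB0]
    have h1 : B ^ 2 ≤ 1 := pow_le_one₀ hB.le (by linarith)
    calc 2 * B * B ^ 2 ≤ 2 * B * 1 := mul_le_mul_of_nonneg_left h1 (by linarith)
      _ ≤ kap := by linarith
  have b4 : B ≤ kap * y (N + 5) := big (by norm_num) a4 g4
  have c4 : Ap 5 (B + y (N + 5)) (1 / B ^ 2) := (Ap.u (h.pos _) b4).trans a4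
  -- x5
  have h5pos : 0 < B ^ 2 * w := mul_pos hBB0 hw0
  have a5 : Ap 7 (y (N + 6)) (1 / (B ^ 2 * w)) := by
    rw [s5]
    have := c4.div c2 (hpos _) hiB0 (hpos _) hw0
    have e : 1 / B ^ 2 / w = 1 / (B ^ 2 * w) := by field_simp
    rwa [e] at this
  have g5 : 2 * B ≤ kap * (1 / (B ^ 2 * w)) := by
    rw [mul_one_div, le_div_iff₀ h5pos]
    have h1 : B ^ 2 ≤ 1 := pow_le_one₀ hB.le (by linarith)
    calc 2 * B * (B ^ 2 * w) = 2 * (B * w) * B ^ 2 := by ring
      _ ≤ 2 * (B * w) * 1 := mul_le_mul_of_nonneg_left h1 (by linarith)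
      _ ≤ kap := by linarith
  have b5 : B ≤ kap * y (N + 6) := big (by norm_num) a5 g5
  have hi5 : 0 < 1 / (B ^ 2 * w) := one_div_pos.mpr h5pos
  have c5 : Ap 8 (B + y (N + 6)) (1 / (B ^ 2 * w)) := (Ap.u (h.pos _) b5).trans a5
  -- x6
  have h6pos : 0 < B * w ^ 2 := mul_pos hB (pow_pos hw0 2)
  have a6 : Ap 12 (y (N + 7)) (1 / (B * w ^ 2)) := by
    rw [s6]
    have := c5.div c3 (hpos _) hi5 (hpos _) hwB0
    have e : 1 / (B ^ 2 * w) / (w / B) = 1 / (B * w ^ 2) := by field_simp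
    rwa [e] at this
  have g6 : 2 * B ≤ kap * (1 / (B * w ^ 2)) := by
    rw [mul_one_div, le_div_iff₀ h6pos]
    calc 2 * B * (B * w ^ 2) ≤ 2 * B * (kap / 100) := mul_le_mul_of_nonneg_left hBww (by linarith)
      _ ≤ 2 * 1 * (kap / 100) := mul_le_mul_of_nonneg_right (by linarith) (by linarith)
      _ ≤ kap := by linarith
  have b6 : B ≤ kap * y (N + 7) := big (by norm_num) a6 g6
  have hi6 : 0 < 1 / (B * w ^ 2) := one_div_pos.mpr h6pos
  have c6 : Ap 13 (B + y (N + 7)) (1 / (B * w ^ 2)) := (Ap.u (h.pos _) b6).trans a6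
  -- x7
  have hww : 0 < w ^ 2 := pow_pos hw0 2
  have h7pos : 0 < B / w ^ 2 := div_pos hB hww
  have h7pos' : 0 < B * (1 + w ^ 2) / w ^ 2 := by
    apply div_pos _ hww
    exact mul_pos hB (by linarith)
  have a7 : Ap 18 (y (N + 8)) (B / w ^ 2) := by
    rw [s7]
    have := c6.div c4 (hpos _) hi6 (hpos _) hiB0
    have e : 1 / (B * w ^ 2) / (1 / B ^ 2) = B / w ^ 2 := by field_simp
    rwa [e] at this
  have c7 : Ap 18 (B + y (N + 8)) (B * (1 + w ^ 2) / w ^ 2) := by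
    have := a7.addB
    have e : B + B / w ^ 2 = B * (1 + w ^ 2) / w ^ 2 := by field_simp; ring
    rwa [e] at this
  have h1w : 0 < 1 + w ^ 2 := by linarith
  have t7 : Ap 36 (th y (N + 8)) (1 / (1 + w ^ 2)) := by
    unfold th
    have := a7.div c7 (h.pos _) h7pos (hpos _) h7pos'
    have e : B / w ^ 2 / (B * (1 + w ^ 2) / w ^ 2) = 1 / (1 + w ^ 2) := by field_simp
    rwa [e] at this
  -- x8
  have a8 : Ap 26 (y (N + 9)) (B * (B ^ 2 * ((1 + w ^ 2) / w))) := by
    rw [s8]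
    have := c7.div c5 (hpos _) h7pos' (hpos _) hi5
    have e : B * (1 + w ^ 2) / w ^ 2 / (1 / (B ^ 2 * w)) = B * (B ^ 2 * ((1 + w ^ 2) / w)) := by
      field_simp
    rwa [e] at this
  have h8 : B ^ 2 * ((1 + w ^ 2) / w) ≤ kap / 2 := by
    have h1 : (1 + w ^ 2) / w ≤ 2 * w := by
      rw [div_le_iff₀ hw0]
      have : 1 ≤ w * w := by
        calc (1 : ℝ) = 1 * 1 := by ring
          _ ≤ w * w := mul_le_mul hw1 hw1 zero_le_one hw0.le
      calc 1 + w ^ 2 ≤ w * w + w ^ 2 := by linarith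
        _ = 2 * w * w := by ring
    calc B ^ 2 * ((1 + w ^ 2) / w) ≤ B ^ 2 * (2 * w) := mul_le_mul_of_nonneg_left h1 hBB0.le
      _ = 2 * B * (B * w) := by ring
      _ ≤ 2 * 1 * (kap / 100) := by
          apply mul_le_mul _ hBw1 hBw0.le (by norm_num)
          linarith
      _ ≤ kap / 2 := by linarith
  have d8 : y (N + 9) ≤ B * kap := by
    calc y (N + 9) ≤ B * (B ^ 2 * ((1 + w ^ 2) / w)) * r ^ 26 := a8.1
      _ ≤ B * (kap / 2) * 2 := by
          apply mul_le_mul _ (r_two (by norm_num)) (rp_pos 26).le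
          · exact mul_nonneg hB.le (by linarith)
          · exact mul_le_mul_of_nonneg_left h8 hB.le
      _ = B * kap := by ring
  have c8 : Ap 1 (B + y (N + 9)) B := Ap.uB (h.pos _) d8
  -- x9
  have a9 : Ap 14 (y (N + 10)) (B * (B * w ^ 2)) := by
    rw [s9]
    have := c8.div c6 (hpos _) hB (hpos _) hi6
    have e : B / (1 / (B * w ^ 2)) = B * (B * w ^ 2) := by field_simp
    rwa [e] at this
  have d9 : y (N + 10) ≤ B * kap := by
    calc y (N + 10) ≤ B * (B * w ^ 2) * r ^ 14 := a9.1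
      _ ≤ B * (kap / 2) * 2 := by
          apply mul_le_mul _ (r_two (by norm_num)) (rp_pos 14).le
          · exact mul_nonneg hB.le (by linarith)
          · exact mul_le_mul_of_nonneg_left (by linarith) hB.le
      _ = B * kap := by ring
  have c9 : Ap 1 (B + y (N + 10)) B := Ap.uB (h.pos _) d9
  -- x10
  have a10 : Ap 19 (y (N + 11)) (f w) := by
    rw [s10]
    have := c9.div c7 (hpos _) hB (hpos _) h7pos'
    have e : B / (B * (1 + w ^ 2) / w ^ 2) = f w := by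
      unfold f
      field_simp
    rwa [e] at this
  exact ⟨⟨th_big (h.pos _) b2, th_big (h.pos _) b3, th_big (h.pos _) b4, th_big (h.pos _) b5,
    th_big (h.pos _) b6⟩, t7, d8, d9, a10, hw1⟩

end Four

open Four

attribute [local irreducible] B kap tau r

theorem st4 : St4 := by
  intro y h N hL
  obtain ⟨⟨d1, d2, d3⟩, hU⟩ := hL
  have hkd := Four.B_div_kap
  rw [hkd] at d1 d2
  have hB := B_pos
  have hw := W_le hU
  have hV : B + y (N + 2) = B * W y N := by
    unfold W U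
    field_simp
  have hwW : W y N * kap ^ 3 ≤ 1 := hw
  obtain ⟨⟨t3, t4, t5, t6, t7⟩, t8, e9, e10, e11, hw1⟩ := core h N (W y N) d1 d2 hV hwW
  set w := W y N with hwdef
  clear_value w
  have hk := kap_pos
  have hk1 := kap_le
  have hf0 : 0 ≤ f w := by unfold f; positivity
  have hf1 : f w ≤ 1 := by
    unfold f
    rw [div_le_one (by positivity)]
    linarith
  have hf2 : 1 / 2 ≤ f w := by
    unfold f
    rw [le_div_iff₀ (by positivity)]
    have : 1 ≤ w ^ 2 := one_le_pow₀ hw1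
    linarith
  have hth : 0 ≤ th y (N + 8) := by
    unfold th
    have h1 := h.pos (N + 8)
    exact div_nonneg h1.le (by linarith)
  have hi : 0 ≤ 1 / (1 + w ^ 2) := by positivity
  refine ⟨t3, t4, t5, t6, t7, ?_, ?_, ⟨?_, ?_, ?_⟩, ?_, ?_, ?_⟩
  · have h1 := t8.2
    have h2 := r_tau (c := 36) (by norm_num)
    calc (1 - tau) / (1 + w ^ 2) = (1 / (1 + w ^ 2)) * (1 - tau) := by ring
      _ ≤ (th y (N + 8) * r ^ 36) * (1 - tau) := mul_le_mul_of_nonneg_right h1 Four.tau_le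
      _ = th y (N + 8) * (r ^ 36 * (1 - tau)) := by ring
      _ ≤ th y (N + 8) * 1 := mul_le_mul_of_nonneg_left h2 hth
      _ = th y (N + 8) := mul_one _
  · calc th y (N + 8) ≤ 1 / (1 + w ^ 2) * r ^ 36 := t8.1
      _ ≤ 1 / (1 + w ^ 2) * (1 + tau) := mul_le_mul_of_nonneg_left (r_tau' (by norm_num)) hi
      _ = (1 + tau) / (1 + w ^ 2) := by ring
  · rw [hkd]; exact e9
  · rw [hkd]; exact e10
  · show y (N + 11) ≤ 2
    calc y (N + 11) ≤ f w * r ^ 19 := e11.1
      _ ≤ 1 * 2 := mul_le_mul hf1 (r_two (by norm_num)) (rp_pos 19).le zero_le_one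
      _ = 2 := one_mul _
  · apply th_big (h.pos _)
    refine big (c := 19) (by norm_num) e11 ?_
    have h1 : B ≤ kap / 100 := by
      refine B_le.trans ?_
      calc kap ^ 8 ≤ kap ^ 2 := pow_le_pow_of_le_one hk.le (by linarith) (by norm_num)
        _ = kap * kap := sq kap
        _ ≤ kap * (1 / 100) := mul_le_mul_of_nonneg_left (by linarith) hk.le
        _ = kap / 100 := by ring
    have h2 : kap * (1 / 2) ≤ kap * f w := mul_le_mul_of_nonneg_left hf2 hk.le
    linarith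
  · have h1 := e11.2
    have h2 := r_tau (c := 19) (by norm_num)
    calc (1 - tau) * f w ≤ (1 - tau) * (y (N + 11) * r ^ 19) :=
          mul_le_mul_of_nonneg_left h1 Four.tau_le
      _ = y (N + 11) * (r ^ 19 * (1 - tau)) := by ring
      _ ≤ y (N + 11) * 1 := mul_le_mul_of_nonneg_left h2 (h.pos _).le
      _ = y (N + 11) := mul_one _
  · calc y (N + 11) ≤ f w * r ^ 19 := e11.1
      _ ≤ f w * (1 + tau) := mul_le_mul_of_nonneg_left (r_tau' (by norm_num)) hf0
      _ = (1 + tau) * f w := mul_comm _ _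

end Pool.Agent.H152R2.RR
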